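import Mathlib
import Pool.Agent.Lib.helper21.Indep

set_option autoImplicit false

namespace Pool.Agent.H.MP_8013b9_lc

open Filter Topology Set

def IsIdeal (I : Set (Set ℕ)) : Prop :=
  (∀ A ∈ I, ∀ B ⊆ A, B ∈ I) ∧ (∀ A ∈ I, ∀ B ∈ I, A ∪ B ∈ I) ∧ (∀ A : Set ℕ, A.Finite → A ∈ I) ∧
    univ ∉ I

def HStar (a : ℕ → ℤ) (I : Set (Set ℕ)) : Set UnitAddCircle :=
  {x | ∃ S ∈ I, Tendsto (fun n => a n • x) (atTop ⊓ 𝓟 Sᶜ) (𝓝 0)}

def G (a : ℕ → ℤ) (B : Set ℕ) : Set ℝ :=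
  {y | Tendsto (fun n => a n • (y : UnitAddCircle)) (atTop ⊓ 𝓟 B) (𝓝 0)}

lemma G_meas (a : ℕ → ℤ) (B : Set ℕ) : MeasurableSet (G a B) :=
  measurableSet_tendsto (𝓝 0) fun n =>
    ((continuous_const_smul (a n)).comp (AddCircle.continuous_mk' (1 : ℝ))).measurable

lemma inj_sum {u : ℕ → ℝ} (h0 : ∀ l, u l ≠ 0) (h : ∀ l, |u (l + 1)| ≤ |u l| / 3)
    (hs : Summable fun l => |u l|) :
    Function.Injective fun e : ℕ → Bool => ∑' l, if e l then u l else 0 := by
  classical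
  intro e e' hee
  by_contra hne
  have hex : ∃ l, e l ≠ e' l := Function.ne_iff.1 hne
  set l := Nat.find hex
  have hl : e l ≠ e' l := Nat.find_spec hex
  have hlt : ∀ m < l, e m = e' m := fun m hm => not_not.1 (Nat.find_min hex hm)
  have sm : ∀ e : ℕ → Bool, Summable fun l => if e l then u l else 0 := fun e =>
    Summable.of_norm_bounded hs fun l => by split_ifs <;> simp
  let δ : ℕ → ℝ := fun l => (if e l then u l else 0) - (if e' l then u l else 0)
  have hδ : Summable δ := (sm e).sub (sm e')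
  have h1 : ∑' l, δ l = 0 := by
    rw [(sm e).tsum_sub (sm e')]; exact sub_eq_zero.2 hee
  have hb : ∀ m, |δ m| ≤ |u m| := fun m => by
    simp only [δ]; split_ifs <;> simp
  rw [← hδ.sum_add_tsum_nat_add (l + 1), Finset.sum_range_succ,
    Finset.sum_eq_zero (fun m hm => by simp [δ, hlt m (Finset.mem_range.1 hm)]), zero_add] at h1
  have h2 : |δ l| = |u l| := by
    simp only [δ]; revert hl; cases e l <;> cases e' l <;> simp
  have h3 : ∀ m, |u (m + (l + 1))| ≤ |u l| / 3 * (1 / 3) ^ m := by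
    intro m
    induction m with
    | zero => simpa using h l
    | succ m ih =>
      have := h (m + (l + 1))
      rw [show m + 1 + (l + 1) = m + (l + 1) + 1 by ring, pow_succ]
      linarith
  have h4 : HasSum (fun m : ℕ => |u l| / 3 * (1 / 3 : ℝ) ^ m) (|u l| / 3 * (1 - 1 / 3)⁻¹) :=
    (hasSum_geometric_of_lt_one (by norm_num) (by norm_num)).mul_left _
  have h5 : ‖∑' m, δ (m + (l + 1))‖ ≤ |u l| / 3 * (1 - 1 / 3)⁻¹ :=
    tsum_of_norm_bounded h4 fun m => (hb _).trans (h3 m)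
  have h6 : ∑' m, δ (m + (l + 1)) = - δ l := by linarith
  rw [h6, norm_neg, Real.norm_eq_abs, h2] at h5
  have := abs_pos.2 (h0 l)
  norm_num at h5
  linarith

lemma G_unc {a : ℕ → ℤ} {B : Set ℕ} (h : ∀ η > (0 : ℝ), ∃ u ∈ G a B, u ≠ 0 ∧ |u| ≤ η ∧
    ∀ n ∈ B, ‖a n • (u : UnitAddCircle)‖ ≤ η) : ¬ (G a B).Countable := by
  choose! f f1 f2 f3 f4 using h
  let η : ℕ → ℝ := fun l => Nat.rec 1 (fun _ t => |f t| / 3) l
  have hpos : ∀ l, 0 < η l := by
    intro l
    induction l with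
    | zero => exact one_pos
    | succ l ih => exact div_pos (abs_pos.2 (f2 _ ih)) (by norm_num)
  have hη : ∀ l, η l ≤ (1 / 3) ^ l := by
    intro l
    induction l with
    | zero => simp [η]
    | succ l ih =>
      have := f3 _ (hpos l)
      show |f (η l)| / 3 ≤ _
      rw [pow_succ]; linarith
  have hg : Summable fun l : ℕ => (1 / 3 : ℝ) ^ l := summable_geometric_of_lt_one (by norm_num) (by norm_num)
  let u : ℕ → ℝ := fun l => f (η l)
  have hs : Summable fun l => |u l| :=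
    Summable.of_nonneg_of_le (fun _ => abs_nonneg _) (fun l => (f3 _ (hpos l)).trans (hη l)) hg
  have hinj := inj_sum (u := u) (fun l => f2 _ (hpos l)) (fun l => f3 _ (hpos (l + 1))) hs
  have hmem : ∀ e : ℕ → Bool, (∑' l, if e l then u l else 0) ∈ G a B := by
    intro e
    have sm : Summable fun l => if e l then u l else 0 :=
      Summable.of_norm_bounded hs fun l => by split_ifs <;> simp
    have key := tendsto_tsum_of_dominated_convergence (𝓕 := atTop ⊓ 𝓟 B)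
      (f := fun n l => a n • (((if e l then u l else 0 : ℝ)) : UnitAddCircle)) (g := fun _ => 0) hg
      (fun l => by
        split_ifs
        · exact f1 _ (hpos l)
        · simpa using tendsto_const_nhds)
      (by
        refine mem_inf_of_right (mem_principal.2 fun n hn l => ?_)
        split_ifs
        · exact (f4 _ (hpos l) n hn).trans (hη l)
        · simp)
    rw [tsum_zero] at key
    refine key.congr fun n => ?_
    have h1 : HasSum (fun l => (((if e l then u l else 0 : ℝ)) : UnitAddCircle))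
        ((∑' l, if e l then u l else 0 : ℝ) : UnitAddCircle) :=
      sm.hasSum.map (QuotientAddGroup.mk' _) (AddCircle.continuous_mk' (1 : ℝ))
    exact (h1.const_smul (a n)).tsum_eq
  intro hc
  have : Countable (ℕ → Bool) := by
    have := hc.to_subtype
    exact Function.Injective.countable (f := fun e : ℕ → Bool => (⟨_, hmem e⟩ : G a B))
      fun e e' h => hinj (congrArg Subtype.val h)
  obtain ⟨g, hg⟩ := exists_surjective_nat (ℕ → Bool)
  obtain ⟨n, hn⟩ := hg fun n => !g n n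
  simpa using congrFun hn n

def U (a : ℕ → ℤ) (A : Set ℕ) (x : ℝ) (k : ℕ) : Set ℝ :=
  ⋃ (d : ℤ) (m : ℤ) (N : ℕ) (_ : k ≤ N ∧ ∀ n ∈ A, N ≤ n →
      |(d : ℝ)| * ‖a n • (x : UnitAddCircle)‖ ≤ 1 / (k + 1)),
    {y | y - (d * x + m) ≠ 0 ∧ (1 + ∑ n ∈ Finset.range N, |(a n : ℝ)|) * |y - (d * x + m)| < 1 / (k + 1)}

lemma U_open (a : ℕ → ℤ) (A : Set ℕ) (x : ℝ) (k : ℕ) : IsOpen (U a A x k) := by
  refine isOpen_iUnion fun d => isOpen_iUnion fun m => isOpen_iUnion fun N => isOpen_iUnion fun _ => ?_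
  have h1 : IsOpen {y : ℝ | y - (d * x + m) ≠ 0} := isOpen_ne_fun (by fun_prop) continuous_const
  have h2 : IsOpen {y : ℝ | (1 + ∑ n ∈ Finset.range N, |(a n : ℝ)|) * |y - (d * x + m)| < 1 / (k + 1)} :=
    isOpen_lt (by fun_prop) continuous_const
  exact h1.inter h2

lemma U_dense {a : ℕ → ℤ} {A : Set ℕ} {x : ℝ} (hx : Irrational x) (hG : x ∈ G a A) (k : ℕ) :
    Dense (U a A x k) := by
  have hd : Dense (AddSubgroup.closure {x, 1} : Set ℝ) :=
    dense_addSubgroupClosure_pair_iff.2 (by simpa using hx)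
  refine Dense.of_closure (hd.mono fun z hz => ?_)
  obtain ⟨d, m, rfl⟩ := AddSubgroup.mem_closure_pair.1 hz
  have h1 : Tendsto (fun n => |(d : ℝ)| * ‖a n • (x : UnitAddCircle)‖) (atTop ⊓ 𝓟 A) (𝓝 0) := by
    simpa using (tendsto_zero_iff_norm_tendsto_zero.1 hG).const_mul |(d : ℝ)|
  have h2 := h1.eventually (ge_mem_nhds (show (0 : ℝ) < 1 / (k + 1) by positivity))
  rw [eventually_inf_principal, eventually_atTop] at h2
  obtain ⟨N, hN⟩ := h2
  have h3 : d • x + m • (1 : ℝ) ∈ closure ({d • x + m • (1 : ℝ)}ᶜ : Set ℝ) := dense_compl_singleton _ _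
  rw [mem_closure_iff] at h3 ⊢
  intro o ho hmem
  obtain ⟨y, ⟨hy1, hy2⟩, hy3⟩ := h3 (o ∩ {y | (1 + ∑ n ∈ Finset.range (max k N), |(a n : ℝ)|) *
    |y - (d * x + m)| < 1 / (k + 1)}) (ho.inter (isOpen_lt (by fun_prop) continuous_const))
    ⟨hmem, by simp; positivity⟩
  refine ⟨y, hy1, mem_iUnion.2 ⟨d, mem_iUnion.2 ⟨m, mem_iUnion.2 ⟨max k N, mem_iUnion.2
    ⟨⟨le_max_left _ _, fun n hn h => hN n (le_of_max_le_right h) hn⟩, ?_, hy2⟩⟩⟩⟩⟩
  rw [sub_ne_zero]
  simpa using hy3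

lemma unc_of_dense {V : ℕ → Set ℝ} (ho : ∀ k, IsOpen (V k)) (hd : ∀ k, Dense (V k)) :
    ¬ (⋂ k, V k).Countable := by
  intro hc
  have h1 : (⋂ k, V k) ∈ residual ℝ := countable_iInter_mem.2 fun k => residual_of_dense_open (ho k) (hd k)
  have h2 : (⋂ p ∈ ⋂ k, V k, ({p}ᶜ : Set ℝ)) ∈ residual ℝ :=
    (countable_bInter_mem hc).2 fun p _ => residual_of_dense_open isOpen_compl_singleton
      (dense_compl_singleton p)
  obtain ⟨p, hp1, hp2⟩ := (dense_of_mem_residual (inter_mem h1 h2)).nonempty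
  exact (mem_iInter₂.1 hp2 p hp1) rfl

lemma small {a : ℕ → ℤ} {A B : Set ℕ} (hB : B ⊆ A) {x y : ℝ} (hx : x ∈ G a B) (hy : y ∈ G a B)
    (hU : ∀ k, y ∈ U a A x k) (η : ℝ) (hη : 0 < η) : ∃ u ∈ G a B, u ≠ 0 ∧ |u| ≤ η ∧
    ∀ n ∈ B, ‖a n • (u : UnitAddCircle)‖ ≤ η := by
  have h2 := (tendsto_zero_iff_norm_tendsto_zero.1 hy).eventually (ge_mem_nhds (half_pos hη))
  rw [eventually_inf_principal, eventually_atTop] at h2
  obtain ⟨N0, hN0⟩ := h2
  obtain ⟨k0, hk0⟩ := exists_nat_one_div_lt (half_pos hη)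
  have hk : 1 / ((max k0 N0 : ℕ) + 1 : ℝ) ≤ η / 2 :=
    (Nat.one_div_le_one_div (le_max_left _ _)).trans hk0.le
  obtain ⟨d, m, N, ⟨h1, h3⟩, h4, h5⟩ : ∃ (d m : ℤ) (N : ℕ), (max k0 N0 ≤ N ∧ ∀ n ∈ A, N ≤ n →
      |(d : ℝ)| * ‖a n • (x : UnitAddCircle)‖ ≤ 1 / ((max k0 N0 : ℕ) + 1)) ∧ y - (d * x + m) ≠ 0 ∧
      (1 + ∑ n ∈ Finset.range N, |(a n : ℝ)|) * |y - (d * x + m)| < 1 / ((max k0 N0 : ℕ) + 1) := by
    have := hU (max k0 N0)
    simp only [U, mem_iUnion] at this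
    obtain ⟨d, m, N, h, h'⟩ := this
    exact ⟨d, m, N, h, h'⟩
  have e : ∀ n, a n • ((y - (d * x + m) : ℝ) : UnitAddCircle) =
      a n • (y : UnitAddCircle) - d • (a n • (x : UnitAddCircle)) := by
    intro n
    have hm : ((m : ℝ) : UnitAddCircle) = 0 := by
      rw [AddCircle.coe_eq_zero_iff]; exact ⟨m, by simp⟩
    rw [AddCircle.coe_sub, AddCircle.coe_add, hm, add_zero, ← zsmul_eq_mul, AddCircle.coe_zsmul,
      smul_sub, smul_comm]
  have hS : 0 ≤ ∑ n ∈ Finset.range N, |(a n : ℝ)| := Finset.sum_nonneg fun _ _ => abs_nonneg _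
  have hu := abs_nonneg (y - (d * x + m))
  refine ⟨y - (d * x + m), ?_, h4, by nlinarith, fun n hn => ?_⟩
  · show Tendsto _ _ _
    simp only [e]
    simpa using Tendsto.sub hy (Tendsto.const_smul hx d)
  · by_cases hnN : n < N
    · have h6 : |(a n : ℝ)| ≤ ∑ n ∈ Finset.range N, |(a n : ℝ)| :=
        Finset.single_le_sum (f := fun n => |(a n : ℝ)|) (fun _ _ => abs_nonneg _)
          (Finset.mem_range.2 hnN)
      rw [← AddCircle.coe_zsmul]
      refine QuotientAddGroup.norm_mk_le_norm.trans ?_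
      rw [zsmul_eq_mul, norm_mul, Real.norm_eq_abs, Real.norm_eq_abs]
      nlinarith
    · rw [e]
      refine (norm_sub_le _ _).trans ?_
      have h6 := hN0 n (by have := le_max_right k0 N0; omega) hn
      have h7 := h3 n (hB hn) (by omega)
      have h8 := norm_zsmul_le d (a n • (x : UnitAddCircle))
      rw [Int.norm_eq_abs] at h8
      linarith

theorem main : ∃ H : AddSubgroup UnitAddCircle, ∀ I, IsIdeal I → ∀ a : ℕ → ℤ,
    (H : Set UnitAddCircle) ≠ HStar a I := by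
  obtain ⟨K, hK⟩ := Pool.Agent.Lib.helper21.Indep.exists_bernstein
  let K' : AddSubgroup ℝ := K.toSubring.toAddSubgroup
  refine ⟨K'.map (QuotientAddGroup.mk' _), fun I hI a hH => ?_⟩
  have mem : ∀ y : ℝ, (y : UnitAddCircle) ∈ HStar a I ↔ y ∈ K := by
    intro y
    rw [← hH]
    constructor
    · rintro ⟨z, hz, e⟩
      obtain ⟨w, ⟨m, rfl⟩, rfl⟩ := (QuotientAddGroup.mk'_eq_mk' _).1 (show QuotientAddGroup.mk' _ z =
        QuotientAddGroup.mk' (AddSubgroup.zmultiples (1 : ℝ)) y from e)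
      exact K.add_mem hz (by simpa using intCast_mem K m)
    · exact fun h => ⟨y, h, rfl⟩
  obtain ⟨x, hx, hxK⟩ := (hK {x | Irrational x} IsGδ.setOfPred_irrational.measurableSet (by
    intro hc
    refine Cardinal.not_countable_real ((hc.union (countable_range (fun q : ℚ => (q : ℝ)))).mono
      fun x _ => ?_)
    by_cases h : Irrational x
    · exact Or.inl h
    · exact Or.inr (not_not.1 h))).1
  obtain ⟨S, hS, hxS⟩ := (mem x).2 hxK
  obtain ⟨y, hy, hyK⟩ := (hK (⋂ k, U a Sᶜ x k) (MeasurableSet.iInter fun k => (U_open _ _ _ k).measurableSet)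
    (unc_of_dense (U_open _ _ _) (U_dense hx hxS))).1
  obtain ⟨S', hS', hyS⟩ := (mem y).2 hyK
  have s1 : (S ∪ S')ᶜ ⊆ Sᶜ := compl_subset_compl.2 subset_union_left
  have s2 : (S ∪ S')ᶜ ⊆ S'ᶜ := compl_subset_compl.2 subset_union_right
  obtain ⟨z, hz, hzK⟩ := (hK (G a (S ∪ S')ᶜ) (G_meas _ _) (G_unc (small s1
    (hxS.mono_left (inf_le_inf_left _ (principal_mono.2 s1)))
    (hyS.mono_left (inf_le_inf_left _ (principal_mono.2 s2))) (mem_iInter.1 hy)))).2
  exact hzK ((mem z).1 ⟨_, hI.2.1 S hS S' hS', hz⟩)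

end Pool.Agent.H.MP_8013b9_lc
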